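import Pool.Agent.TF2.L.Alg2

/-!
# TF2/L-AlgR: ALG relative to a field `R0` with real places instead of `ℚ`

Combination of `alg2` for `K` and for `R0`.
-/

namespace Pool.Agent.TF2

open NumberField IsDedekindDomain Pool.Agent.HWR Pool.Agent.QD Pool.Agent.LD Pool.Agent.H73.AL
  Pool.Agent.H73.DU Pool.Agent.THF

/-- `n` copies of a list -/
def mul (n : ℕ) (A : List NF) : List NF := (List.replicate n A).flatten

theorem mem_mul {n : ℕ} {A : List NF} {F : NF} (h : F ∈ mul n A) : F ∈ A := by
  unfold mul at h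
  obtain ⟨B, hB, hF⟩ := List.mem_flatten.1 h
  rw [List.eq_of_mem_replicate hB] at hF
  exact hF

theorem sum_mul {M : Type} [AddCommMonoid M] (n : ℕ) (A : List NF) (f : NF → M) :
    ((mul n A).map f).sum = n • (A.map f).sum := by
  unfold mul
  induction n with
  | zero => simp
  | succ n ih =>
    rw [List.replicate_succ, List.flatten_cons, List.map_append, List.sum_append, ih, succ_nsmul']

theorem algR (V : Finset ℕ) (m : ℕ) {T : Finset ℕ} (hTp : ∀ p ∈ T, p.Prime) (h2 : 2 ∈ T)
    (K R0 : NF) (hR : 0 < InfinitePlace.nrRealPlaces R0.F) :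
    ∃ (m1 m2 : ℕ) (A B : List NF), 0 < m1 ∧
      m2 * InfinitePlace.nrRealPlaces R0.F = m1 * InfinitePlace.nrRealPlaces K.F ∧
      (∀ F ∈ A ++ B, Ev V T m F.F ∧ Module.finrank ℚ F.F ≤
        max (bdA (Module.finrank ℚ K.F) m) (bdA (Module.finrank ℚ R0.F) m)) ∧
      Rel T (List.replicate m1 K ++ A) (List.replicate m2 R0 ++ B) := by
  obtain ⟨k, A, B, hk, hAB, hrel⟩ := alg2 V m hTp h2 K
  obtain ⟨k', A', B', hk', hAB', hrel'⟩ := alg2 V m hTp h2 R0
  set r := InfinitePlace.nrRealPlaces K.F with hr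
  set r' := InfinitePlace.nrRealPlaces R0.F with hr'
  refine ⟨k' * r' * k, k * r * k', mul (k' * r') A ++ mul (k * r) B', mul (k * r) A' ++ mul (k' * r') B,
    by positivity, by ring, ?_, ?_⟩
  · intro F hF
    have h1 : F ∈ A ++ B ∨ F ∈ A' ++ B' := by
      rcases List.mem_append.1 hF with h | h
      · rcases List.mem_append.1 h with h | h
        · exact Or.inl (List.mem_append.2 (Or.inl (mem_mul h)))
        · exact Or.inr (List.mem_append.2 (Or.inr (mem_mul h)))
      · rcases List.mem_append.1 h with h | h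
        · exact Or.inr (List.mem_append.2 (Or.inl (mem_mul h)))
        · exact Or.inl (List.mem_append.2 (Or.inr (mem_mul h)))
    rcases h1 with h | h
    · exact ⟨(hAB F h).1, (hAB F h).2.trans (le_max_left _ _)⟩
    · exact ⟨(hAB' F h).1, (hAB' F h).2.trans (le_max_right _ _)⟩
  · intro U hU
    have e1 := hrel U hU
    have e2 := hrel' U hU
    simp only [List.map_append, List.sum_append, List.map_replicate, List.sum_replicate,
      sum_mul] at e1 e2 ⊢
    simp only [nsmul_eq_mul] at e1 e2 ⊢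
    push_cast at e1 e2 ⊢
    linear_combination ((k' : ℤ) * r') * e1 - ((k : ℤ) * r) * e2

end Pool.Agent.TF2
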