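import Pool.Agent.THF.L.Cx

/-!
# TF2/L-Cent2: the centralizer of complex conjugation (paper 1 (a))

`J0 = N0 ⊔ zpowers c` is open, its fixed field has a primitive element `θ`. For every conjugate `θ'` of `θ` which is fixed by `c` and
different from `θ` there is an `s` (a square root of `± (θ - q)`, `q` a rational number between the real numbers `θ`, `θ'`) such that
`c s = s` and `g s` is not real if `g θ = θ'` (`Cnt2_sep`). `N1` is an open normal subgroup contained in `N0` and in the stabilizers of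
`θ` and of these `s`. If `g c = n c g` with `n` in `N1` and `c x = x` for one of these elements `x`, then `g x = n (c g x) = c (g x)`.
So `g θ` is fixed by `c`, and `g θ = θ`, so `g` is in `J0`.
-/

namespace Pool.Agent.TF2

open NumberField IsDedekindDomain Pool.Agent.HWR Pool.Agent.LD Pool.Agent.H73.AL
  Pool.Agent.H73.DU Pool.Agent.THF

private theorem Cnt2_alg (inst : Algebra ℚ (AlgebraicClosure ℚ)) :
    IsAlgClosure ℚ (AlgebraicClosure ℚ) := by
  have h : inst = AlgebraicClosure.instAlgebra ℚ := Subsingleton.elim _ _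
  subst h
  infer_instance

private theorem Cnt2_gal : IsGalois ℚ (AlgebraicClosure ℚ) := by
  have : IsAlgClosure ℚ (AlgebraicClosure ℚ) := Cnt2_alg inferInstance
  have : Normal ℚ (AlgebraicClosure ℚ) := IsAlgClosure.normal ℚ _
  exact {}

private theorem Cnt2_pos {z : ℂ} {r : ℝ} (h : z ^ 2 = (r : ℂ)) (hr : 0 < r) : z.im = 0 := by
  have h1 := congrArg Complex.re h
  have h2 := congrArg Complex.im h
  rw [sq] at h1 h2
  simp only [Complex.mul_re, Complex.mul_im, Complex.ofReal_re, Complex.ofReal_im] at h1 h2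
  by_contra h3
  have h4 : z.re = 0 := by
    have : z.re * z.im = 0 := by linarith
    exact (mul_eq_zero.1 this).resolve_right h3
  rw [h4] at h1
  nlinarith [mul_self_nonneg z.im]

private theorem Cnt2_neg {z : ℂ} {r : ℝ} (h : z ^ 2 = (r : ℂ)) (hr : r < 0) : z.im ≠ 0 := by
  intro h3
  have h1 := congrArg Complex.re h
  rw [sq] at h1
  simp only [Complex.mul_re, Complex.ofReal_re] at h1
  rw [h3] at h1
  nlinarith [mul_self_nonneg z.re]

private theorem Cnt2_rat {a b : ℝ} (h : a ≠ b) : ∃ ε q : ℚ, 0 < (ε : ℝ) * (a - q) ∧ (ε : ℝ) * (b - q) < 0 := by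
  rcases lt_or_gt_of_ne h with h | h
  · obtain ⟨q, h1, h2⟩ := exists_rat_btwn h
    refine ⟨-1, q, ?_, ?_⟩
    · push_cast
      linarith
    · push_cast
      linarith
  · obtain ⟨q, h1, h2⟩ := exists_rat_btwn h
    refine ⟨1, q, ?_, ?_⟩
    · push_cast
      linarith
    · push_cast
      linarith

private theorem Cnt2_sep {i : AlgebraicClosure ℚ →+* ℂ} {c : GQ} (h : IsCx i c) {t t' : AlgebraicClosure ℚ}
    (ht : c t = t) (ht' : c t' = t') (hne : t' ≠ t) :
    ∃ (s : AlgebraicClosure ℚ) (ε q : ℚ), s ^ 2 = (ε : AlgebraicClosure ℚ) * (t - (q : AlgebraicClosure ℚ)) ∧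
      c s = s ∧ ∀ g : GQ, g t = t' → c (g s) ≠ g s := by
  have h1 : (i t).im = 0 := (cx_real h t).1 ht
  have h2 : (i t').im = 0 := (cx_real h t').1 ht'
  have h3 : (i t).re ≠ (i t').re := fun h4 => hne (i.injective (Complex.ext h4.symm (h2.trans h1.symm)))
  obtain ⟨ε, q, h4, h5⟩ := Cnt2_rat h3
  obtain ⟨s, hs⟩ := IsAlgClosed.exists_pow_nat_eq ((ε : AlgebraicClosure ℚ) * (t - (q : AlgebraicClosure ℚ))) two_pos
  have h6 : ∀ x : AlgebraicClosure ℚ, (i x).im = 0 → i ((ε : AlgebraicClosure ℚ) * (x - (q : AlgebraicClosure ℚ))) =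
      (((ε : ℝ) * ((i x).re - q) : ℝ) : ℂ) := fun x hx => by
    have h7 : i x = ((i x).re : ℂ) := Complex.ext rfl (by rw [hx, Complex.ofReal_im])
    rw [map_mul, map_sub, map_ratCast, map_ratCast]
    push_cast
    rw [← h7]
  refine ⟨s, ε, q, hs, (cx_real h s).2 (Cnt2_pos (r := (ε : ℝ) * ((i t).re - q)) ?_ h4), fun g hg hgs => ?_⟩
  · rw [← map_pow, hs, h6 t h1]
  · refine Cnt2_neg (z := i (g s)) (r := (ε : ℝ) * ((i t').re - q)) ?_ h5 ((cx_real h (g s)).1 hgs)
    rw [← map_pow, ← map_pow, hs, map_mul, map_sub, map_ratCast, map_ratCast, hg, h6 t' h2]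

private theorem Cnt2_open (x : AlgebraicClosure ℚ) : IsOpen {g : GQ | g x = x} := by
  have := Cnt2_gal
  have hx : IsIntegral ℚ x := (Algebra.IsAlgebraic.isAlgebraic x).isIntegral
  have : FiniteDimensional ℚ (IntermediateField.adjoin ℚ {x}) := IntermediateField.adjoin.finiteDimensional hx
  have h1 : IsOpen (MulAction.stabilizer GQ x : Set GQ) := by
    refine Subgroup.isOpen_mono ?_ (IntermediateField.fixingSubgroup_isOpen (IntermediateField.adjoin ℚ {x}))
    intro g hg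
    rw [MulAction.mem_stabilizer_iff]
    exact (IntermediateField.mem_fixingSubgroup_iff _ g).1 hg x (IntermediateField.mem_adjoin_simple_self ℚ x)
  exact h1

/-- an open subgroup is the stabilizer of an element -/
private theorem Cnt2_prim (J : Subgroup GQ) (hJ : IsOpen (J : Set GQ)) :
    ∃ t : AlgebraicClosure ℚ, (∀ g ∈ J, g t = t) ∧ ∀ g : GQ, g t = t → g ∈ J := by
  have := Cnt2_gal
  let F : IntermediateField ℚ (AlgebraicClosure ℚ) := IntermediateField.fixedField J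
  have hfd : FiniteDimensional ℚ F := by
    obtain ⟨E, hE, hEN⟩ := (krullTopology_mem_nhds_one_iff ℚ (AlgebraicClosure ℚ) (J : Set _)).1
      (hJ.mem_nhds J.one_mem)
    have h1 : F ≤ E := by
      rw [← InfiniteGalois.fixedField_fixingSubgroup E]
      exact IntermediateField.fixedField_antitone hEN
    have := hE
    exact Submodule.finiteDimensional_of_le (S₁ := Subalgebra.toSubmodule F.toSubalgebra)
      (S₂ := Subalgebra.toSubmodule E.toSubalgebra) h1
  have h2 : F.fixingSubgroup = J := by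
    have := InfiniteGalois.fixingSubgroup_fixedField
      (⟨J, J.isClosed_of_isOpen hJ⟩ : ClosedSubgroup GQ)
    exact this
  let pb := Field.powerBasisOfFiniteOfSeparable ℚ F
  refine ⟨(pb.gen : AlgebraicClosure ℚ), fun g hg => ?_, fun g hg => ?_⟩
  · rw [← h2] at hg
    exact (IntermediateField.mem_fixingSubgroup_iff _ g).1 hg _ pb.gen.2
  · rw [← h2, IntermediateField.mem_fixingSubgroup_iff]
    intro x hx
    have h3 : (g : AlgebraicClosure ℚ →ₐ[ℚ] AlgebraicClosure ℚ).comp F.val = F.val := pb.algHom_ext hg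
    exact AlgHom.congr_fun h3 ⟨x, hx⟩

private noncomputable def Cnt2_st (x : AlgebraicClosure ℚ) : Subgroup GQ :=
  MulAction.stabilizer GQ x

private theorem Cnt2_mem {x : AlgebraicClosure ℚ} {g : GQ} : g ∈ Cnt2_st x ↔ g x = x := by
  unfold Cnt2_st
  rw [MulAction.mem_stabilizer_iff, AlgEquiv.smul_def]

/-- a square root of an element fixed by `N` -/
private theorem Cnt2_rel {N : Subgroup GQ} {y z : AlgebraicClosure ℚ} (hy : y ^ 2 = z)
    (hz : ∀ g ∈ N, g z = z) : (Cnt2_st y).relIndex N ≤ 2 := by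
  have h1 : (Cnt2_st y).subgroupOf N = MulAction.stabilizer N y := by
    ext g
    rw [Subgroup.mem_subgroupOf, Cnt2_mem, MulAction.mem_stabilizer_iff]
    rfl
  rw [Subgroup.relIndex, h1, MulAction.index_stabilizer]
  have hsub : MulAction.orbit N y ⊆ ({y, -y} : Set (AlgebraicClosure ℚ)) := by
    rintro _ ⟨g, rfl⟩
    have h2 : ((g : GQ) y) ^ 2 = y ^ 2 := by
      rw [← map_pow, hy]
      exact hz g g.2
    rcases sq_eq_sq_iff_eq_or_eq_neg.1 h2 with h | h
    · change (g : GQ) y ∈ _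
      rw [h]
      exact Set.mem_insert _ _
    · change (g : GQ) y ∈ _
      rw [h]
      exact Set.mem_insert_of_mem _ rfl
  refine (Set.ncard_le_ncard hsub (Set.toFinite _)).trans ?_
  refine (Set.ncard_insert_le _ _).trans ?_
  rw [Set.ncard_singleton]

/-- the fixing subgroup of the square roots `y p`, `p ∈ P`, over `N0` -/
private theorem Cnt2_idx {N0 : Subgroup GQ} {P : Type} [Fintype P]
    (y z : P → AlgebraicClosure ℚ) (hy : ∀ p, y p ^ 2 = z p) (hz : ∀ p, ∀ g ∈ N0, g (z p) = z p) :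
    (N0 ⊓ ⨅ p, Cnt2_st (y p)).index ≤ N0.index * 2 ^ Fintype.card P := by
  rw [← Subgroup.relIndex_mul_index (inf_le_left : N0 ⊓ (⨅ p, Cnt2_st (y p)) ≤ N0),
    Subgroup.inf_relIndex_left, mul_comm]
  refine Nat.mul_le_mul_left _ ?_
  refine (Subgroup.relIndex_iInf_le (f := fun p => Cnt2_st (y p)) (L := N0)).trans ?_
  refine (Finset.prod_le_prod' (g := fun _ => 2) fun p _ => Cnt2_rel (hy p) (hz p)).trans ?_
  rw [Finset.prod_const, Finset.card_univ]

theorem cent2 {i : AlgebraicClosure ℚ →+* ℂ} {c : GQ} (h : IsCx i c) (N0 : Subgroup GQ)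
    (h0 : IsOpen (N0 : Set GQ)) (hn : N0.Normal) (hf : N0.FiniteIndex) : ∃ N1 : Subgroup GQ,
      IsOpen (N1 : Set GQ) ∧ N1.Normal ∧ N1 ≤ N0 ∧ N1.index ≤ N0.index * 2 ^ (N0.index ^ 2) ∧
      ∀ g : GQ, g * c * g⁻¹ * c⁻¹ ∈ N1 → g ∈ N0 ∨ g * c⁻¹ ∈ N0 := by
  classical
  have := Cnt2_gal
  obtain ⟨t, ht, ht'⟩ := Cnt2_prim (N0 ⊔ Subgroup.zpowers c) (Subgroup.isOpen_mono le_sup_left h0)
  have hct : c t = t := ht c ((le_sup_right : _ ≤ N0 ⊔ Subgroup.zpowers c) (Subgroup.mem_zpowers c))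
  have hsep : ∀ t' : AlgebraicClosure ℚ, ∃ (s : AlgebraicClosure ℚ) (ε q : ℚ),
      s ^ 2 = (ε : AlgebraicClosure ℚ) * (t - (q : AlgebraicClosure ℚ)) ∧ c s = s ∧
      (c t' = t' → t' ≠ t → ∀ g : GQ, g t = t' → c (g s) ≠ g s) := fun t' => by
    by_cases h1 : c t' = t' ∧ t' ≠ t
    · obtain ⟨s, ε, q, he, hs, hs'⟩ := Cnt2_sep h hct h1.1 h1.2
      exact ⟨s, ε, q, he, hs, fun _ _ => hs'⟩
    · refine ⟨0, 0, 0, ?_, map_zero _, fun h2 h3 => absurd ⟨h2, h3⟩ h1⟩
      rw [Rat.cast_zero]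
      ring
  choose s ε q hsq hs hs' using hsep
  -- the orbit of `t`
  have hNt : N0 ≤ Cnt2_st t := fun g hg => Cnt2_mem.2 (ht g (Subgroup.mem_sup_left hg))
  have hfi : (Cnt2_st t).FiniteIndex := Subgroup.finiteIndex_of_le hNt
  have hfin : Finite (MulAction.orbit GQ t) := by
    have h1 : Finite (GQ ⧸ MulAction.stabilizer GQ t) := by
      have := hfi
      unfold Cnt2_st at this
      infer_instance
    exact Finite.of_equiv _ (MulAction.orbitEquivQuotientStabilizer GQ t).symm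
  have hcard : Nat.card (MulAction.orbit GQ t) ≤ N0.index := by
    have h1 : Nat.card (MulAction.orbit GQ t) = (Cnt2_st t).index := by
      unfold Cnt2_st
      rw [MulAction.index_stabilizer]
      rfl
    rw [h1]
    exact Nat.le_of_dvd (Nat.pos_of_ne_zero hf.index_ne_zero) (Subgroup.index_dvd_of_le hNt)
  have hft : Fintype (MulAction.orbit GQ t) := Fintype.ofFinite _
  -- the square roots
  have hex : ∀ p : MulAction.orbit GQ t × MulAction.orbit GQ t, ∃ y : AlgebraicClosure ℚ,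
      y ^ 2 = (ε p.1.1 : AlgebraicClosure ℚ) * (p.2.1 - (q p.1.1 : AlgebraicClosure ℚ)) := fun p =>
    IsAlgClosed.exists_pow_nat_eq _ two_pos
  choose y hy using hex
  have hN0o : ∀ x : MulAction.orbit GQ t, ∀ g ∈ N0, g x.1 = x.1 := by
    rintro ⟨x, a, rfl⟩ g hg
    change g (a t) = a t
    have h1 : a⁻¹ * g * a⁻¹⁻¹ ∈ N0 := hn.conj_mem g hg a⁻¹
    rw [inv_inv] at h1
    have h2 : (a⁻¹ * g * a) t = t := Cnt2_mem.1 (hNt h1)
    have h3 : a ((a⁻¹ * g * a) t) = a t := congrArg a h2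
    have h4 : a * (a⁻¹ * g * a) = g * a := by group
    have h5 : a ((a⁻¹ * g * a) t) = (a * (a⁻¹ * g * a)) t := rfl
    rw [h5, h4] at h3
    exact h3
  have hratf : ∀ (g : GQ) (r : ℚ), g (r : AlgebraicClosure ℚ) = r := fun g r => map_ratCast g r
  have hz : ∀ p : MulAction.orbit GQ t × MulAction.orbit GQ t, ∀ g ∈ N0,
      g ((ε p.1.1 : AlgebraicClosure ℚ) * (p.2.1 - (q p.1.1 : AlgebraicClosure ℚ))) =
        (ε p.1.1 : AlgebraicClosure ℚ) * (p.2.1 - (q p.1.1 : AlgebraicClosure ℚ)) := by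
    intro p g hg
    rw [map_mul, map_sub, hratf, hratf, hN0o p.2 g hg]
  have hidx := Cnt2_idx (N0 := N0) y _ hy hz
  have hPc : Fintype.card (MulAction.orbit GQ t × MulAction.orbit GQ t) ≤ N0.index ^ 2 := by
    rw [Fintype.card_prod, ← Nat.card_eq_fintype_card, sq]
    exact Nat.mul_le_mul hcard hcard
  -- a conjugate of `s t'` is `± y`
  have hconj : ∀ (t' : MulAction.orbit GQ t) (a : GQ), ∃ p : MulAction.orbit GQ t × MulAction.orbit GQ t,
      a (s t'.1) = y p ∨ a (s t'.1) = -y p := by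
    intro t' a
    refine ⟨(t', ⟨a t, ⟨a, rfl⟩⟩), ?_⟩
    refine sq_eq_sq_iff_eq_or_eq_neg.1 ?_
    rw [← map_pow, hsq, hy, map_mul, map_sub, hratf, hratf]
  have hyconj : ∀ (p : MulAction.orbit GQ t × MulAction.orbit GQ t) (a : GQ),
      ∃ p' : MulAction.orbit GQ t × MulAction.orbit GQ t, a (y p) = y p' ∨ a (y p) = -y p' := by
    rintro ⟨p1, ⟨p2, b, hb⟩⟩ a
    refine ⟨(p1, ⟨a p2, ⟨a * b, ?_⟩⟩), ?_⟩
    · rw [← hb]
      rfl
    · refine sq_eq_sq_iff_eq_or_eq_neg.1 ?_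
      rw [← map_pow, hy, hy, map_mul, map_sub, hratf, hratf]
  let N1 : Subgroup GQ := N0 ⊓ ⨅ p, Cnt2_st (y p)
  have hN1mem : ∀ g : GQ, g ∈ N1 ↔ g ∈ N0 ∧ ∀ p, g (y p) = y p := by
    intro g
    change g ∈ N0 ⊓ ⨅ p, Cnt2_st (y p) ↔ _
    rw [Subgroup.mem_inf, Subgroup.mem_iInf]
    exact and_congr_right fun _ => forall_congr' fun p => Cnt2_mem
  have hN1n : N1.Normal := by
    refine ⟨fun n hn' g => ?_⟩
    obtain ⟨h1, h2⟩ := (hN1mem n).1 hn'
    refine (hN1mem _).2 ⟨hn.conj_mem n h1 g, fun p => ?_⟩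
    obtain ⟨p', hp'⟩ := hyconj p g⁻¹
    have h3 : n (g⁻¹ (y p)) = g⁻¹ (y p) := by
      rcases hp' with h | h
      · rw [h, h2 p']
      · rw [h, map_neg, h2 p']
    change g (n (g⁻¹ (y p))) = y p
    rw [h3]
    change (g * g⁻¹) (y p) = y p
    rw [mul_inv_cancel]
    rfl
  have hN1o : IsOpen (N1 : Set GQ) := by
    have h1 : (N1 : Set GQ) = (N0 : Set GQ) ∩ ⋂ p, {g : GQ | g (y p) = y p} := by
      ext g
      rw [SetLike.mem_coe, hN1mem, Set.mem_inter_iff, Set.mem_iInter]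
      rfl
    rw [h1]
    exact h0.inter (isOpen_iInter_of_finite fun p => Cnt2_open _)
  refine ⟨N1, hN1o, hN1n, inf_le_left, ?_, fun g hg => ?_⟩
  · refine hidx.trans (Nat.mul_le_mul_left _ ?_)
    exact Nat.pow_le_pow_right two_pos hPc
  have hfixt : ∀ n ∈ N1, ∀ a : GQ, n (a t) = a t := fun n hn' a =>
    hN0o ⟨a t, ⟨a, rfl⟩⟩ n ((hN1mem n).1 hn').1
  have hfixs : ∀ n ∈ N1, ∀ (t' : MulAction.orbit GQ t) (a : GQ), n (a (s t'.1)) = a (s t'.1) := by
    intro n hn' t' a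
    obtain ⟨p, hp | hp⟩ := hconj t' a
    · rw [hp, ((hN1mem n).1 hn').2 p]
    · rw [hp, map_neg, ((hN1mem n).1 hn').2 p]
  have hcomm : ∀ x : AlgebraicClosure ℚ, c x = x → (∀ n ∈ N1, ∀ a : GQ, n (a x) = a x) →
      c (g x) = g x := fun x hcx hx => by
    have h1 := hx _ hg (c * g)
    have h2 : (g * c * g⁻¹ * c⁻¹) * (c * g) = g * c := by group
    have h3 : (g * c * g⁻¹ * c⁻¹) ((c * g) x) = ((g * c * g⁻¹ * c⁻¹) * (c * g)) x := rfl
    rw [h3, h2] at h1
    have h4 : (g * c) x = g (c x) := rfl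
    rw [h4, hcx] at h1
    exact h1.symm
  have hgt : g t = t := by
    by_contra hne
    have h1 : c (g t) = g t := hcomm t hct hfixt
    exact hs' (g t) h1 hne g rfl (hcomm (s (g t)) (hs (g t)) fun n hn' a =>
      hfixs n hn' ⟨g t, ⟨g, rfl⟩⟩ a)
  have hgJ := ht' g hgt
  obtain ⟨n, hn', y, hy, hny⟩ := Subgroup.mem_sup_of_normal_left.1 hgJ
  obtain ⟨k, rfl⟩ := Subgroup.mem_zpowers_iff.1 hy
  have hcc : c * c = 1 := cx_sq h
  rcases Int.even_or_odd k with ⟨m, rfl⟩ | ⟨m, rfl⟩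
  · left
    rw [← two_mul, zpow_mul, zpow_two, hcc, one_zpow, mul_one] at hny
    rw [← hny]
    exact hn'
  · right
    rw [zpow_add, zpow_mul, zpow_two, hcc, one_zpow, one_mul, zpow_one] at hny
    rw [← hny, mul_inv_cancel_right]
    exact hn'

end Pool.Agent.TF2
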