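import Pool.Agent.QD.N3Main
import Pool.Agent.LD.L.Pl
import Pool.Agent.MD.L.FixT
import Pool.Agent.THF.L.Sq

/-!
# TF2/L-W2: elementary abelian 2-extensions of `ℚ`, completely split at `T`

`exists_W`: for every `k` there is an open normal subgroup `W` of index `2 ^ k` with elementary abelian quotient which
contains all members of `famT T` which are not cyclic.  Induction on `k`: add a square root of a prime `p ≡ 1` modulo
`8 ∏ T` whose fixing subgroup does not contain `W` (only finitely many subgroups contain `W`).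
`dvd_index`: `2 ^ m` divides the index of `U ⊔ N`, `U ∈ famT T`, `N ≤ W`, `k = m + 1`.
-/

namespace Pool.Agent.TF2

open NumberField IsDedekindDomain Pool.Agent.HWR Pool.Agent.QD Pool.Agent.LD Pool.Agent.H73.AL
  Pool.Agent.H73.DU Pool.Agent.THF

private theorem W2_span {v : HeightOneSpectrum (𝓞 ℚ)} {p : ℕ} (hp : p.Prime)
    (hv : ((p : ℕ) : 𝓞 ℚ) ∈ v.asIdeal) : v.asIdeal = Ideal.span {((p : ℕ) : 𝓞 ℚ)} := by
  refine le_antisymm (fun x hx => ?_) ?_
  · rw [Ideal.mem_span_singleton]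
    by_cases h : (p : ℤ) ∣ Rat.ringOfIntegersEquiv x
    · have h1 := map_dvd Rat.ringOfIntegersEquiv.symm h
      rw [RingEquiv.symm_apply_apply, map_natCast] at h1
      exact h1
    · exfalso
      have hc : IsCoprime (p : ℤ) (Rat.ringOfIntegersEquiv x) :=
        (Int.prime_iff_natAbs_prime.2 (by simpa using hp)).coprime_iff_not_dvd.2 h
      obtain ⟨s, t, hst⟩ := hc
      have h1 := congrArg Rat.ringOfIntegersEquiv.symm hst
      rw [map_add, map_mul, map_mul, RingEquiv.symm_apply_apply, map_natCast, map_one] at h1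
      refine v.isPrime.ne_top ((Ideal.eq_top_iff_one _).2 ?_)
      rw [← h1]
      exact v.asIdeal.add_mem (v.asIdeal.mul_mem_left _ hv) (v.asIdeal.mul_mem_left _ hx)
  · rw [Ideal.span_singleton_le_iff_mem]
    exact hv

private theorem W2_mem {v : HeightOneSpectrum (𝓞 ℚ)} {p : ℕ} (hp : p.Prime)
    (hv : ((p : ℕ) : 𝓞 ℚ) ∈ v.asIdeal) (n : ℤ) (k : ℕ) :
    ((n : ℤ) : 𝓞 ℚ) ∈ v.asIdeal ^ k ↔ (p : ℤ) ^ k ∣ n := by
  rw [W2_span hp hv, Ideal.span_singleton_pow, Ideal.mem_span_singleton]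
  constructor
  · intro h
    have h1 := map_dvd Rat.ringOfIntegersEquiv h
    rw [map_pow, map_natCast, map_intCast] at h1
    simpa using h1
  · rintro ⟨m, rfl⟩
    push_cast
    exact Dvd.intro _ rfl

private theorem W2_mem1 {v : HeightOneSpectrum (𝓞 ℚ)} {p : ℕ} (hp : p.Prime)
    (hv : ((p : ℕ) : 𝓞 ℚ) ∈ v.asIdeal) (n : ℤ) : ((n : ℤ) : 𝓞 ℚ) ∈ v.asIdeal ↔ (p : ℤ) ∣ n := by
  have h := W2_mem hp hv n 1
  rwa [pow_one, pow_one] at h

private theorem W2_val {v : HeightOneSpectrum (𝓞 ℚ)} {p : ℕ} (hp : p.Prime)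
    (hv : ((p : ℕ) : 𝓞 ℚ) ∈ v.asIdeal) (n : ℤ) (k : ℕ) :
    v.valuation ℚ (n : ℚ) ≤ WithZero.exp (-(k : ℤ)) ↔ (p : ℤ) ^ k ∣ n := by
  have h1 : (n : ℚ) = algebraMap (𝓞 ℚ) ℚ ((n : ℤ) : 𝓞 ℚ) := by rw [map_intCast]
  rw [h1, HeightOneSpectrum.valuation_of_algebraMap, HeightOneSpectrum.intValuation_le_pow_iff_mem]
  exact W2_mem hp hv n k

private theorem W2_close {v : HeightOneSpectrum (𝓞 ℚ)} {p : ℕ} (hp : p.Prime)
    (hv : ((p : ℕ) : 𝓞 ℚ) ∈ v.asIdeal) {n : ℤ} {k : ℕ} (h : (p : ℤ) ^ k ∣ n - 1) : closeOne v k (n : ℚ) := by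
  unfold closeOne
  have h1 := (W2_val hp hv (n - 1) k).2 h
  rwa [Int.cast_sub, Int.cast_one] at h1

private theorem W2_lsq {T : Finset ℕ} (hTp : ∀ p ∈ T, p.Prime) {v : HeightOneSpectrum (𝓞 ℚ)}
    (hv : ¬ Away ℚ T v) {x : ℚˣ} {n : ℤ} (hx : (x : ℚ) = n) (hn : ((8 * ∏ p ∈ T, p : ℕ) : ℤ) ∣ n - 1) : LSq v x := by
  unfold Away at hv
  push Not at hv
  obtain ⟨p, hpT, hpv⟩ := hv
  have hp := hTp p hpT
  refine LSq_of_close v x ?_
  rw [hx]
  refine W2_close hp hpv ?_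
  by_cases h2 : p = 2
  · subst h2
    have he : e2 v ≤ 1 := by
      have h3 : ((2 : ℤ) : 𝓞 ℚ) ∈ v.asIdeal ^ e2 v := by exact_mod_cast two_mem_pow v
      have h4 : (2 : ℤ) ^ e2 v ∣ 2 := by simpa using (W2_mem hp hpv 2 (e2 v)).1 h3
      by_contra h5
      push Not at h5
      have h6 : (2 : ℤ) ^ 2 ∣ 2 := (pow_dvd_pow 2 h5).trans h4
      norm_num at h6
    have h7 : (2 : ℤ) ^ (2 * e2 v + 1) ∣ 2 ^ 3 := pow_dvd_pow 2 (by omega)
    refine dvd_trans ?_ hn
    push_cast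
    refine h7.trans ?_
    norm_num
  · have h3 : (2 : 𝓞 ℚ) ∉ v.asIdeal := by
      intro h3
      have h4 := (W2_mem1 hp hpv 2).1 (by exact_mod_cast h3)
      have h5 : p ∣ 2 := by exact_mod_cast h4
      exact h2 ((Nat.prime_dvd_prime_iff_eq hp Nat.prime_two).1 h5)
    rw [e2_eq_zero v h3]
    refine dvd_trans ?_ hn
    have h4 : p ∣ ∏ p ∈ T, p := Finset.dvd_prod_of_mem (fun p => p) hpT
    have h5 : p ∣ 8 * ∏ p ∈ T, p := Dvd.dvd.mul_left h4 8
    simpa using (Int.natCast_dvd_natCast.2 h5)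


private theorem W2_cl (inst : Algebra ℚ (AlgebraicClosure ℚ)) :
    IsAlgClosure ℚ (AlgebraicClosure ℚ) := by
  have h : inst = AlgebraicClosure.instAlgebra ℚ := Subsingleton.elim _ _
  subst h
  infer_instance

private noncomputable def W2_st (s : AlgebraicClosure ℚ) : Subgroup GQ :=
  MulAction.stabilizer GQ s

private theorem W2_mems {s : AlgebraicClosure ℚ} {g : GQ} : g ∈ W2_st s ↔ g s = s := by
  unfold W2_st
  rw [MulAction.mem_stabilizer_iff, AlgEquiv.smul_def]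

private theorem W2_open (s : AlgebraicClosure ℚ) : IsOpen (W2_st s : Set GQ) := by
  have hcl : IsAlgClosure ℚ (AlgebraicClosure ℚ) := W2_cl inferInstance
  have hi : IsIntegral ℚ s := (hcl.isAlgebraic.isAlgebraic s).isIntegral
  have : FiniteDimensional ℚ (IntermediateField.adjoin ℚ {s}) :=
    IntermediateField.adjoin.finiteDimensional hi
  refine Subgroup.isOpen_mono ?_
    (IntermediateField.fixingSubgroup_isOpen (IntermediateField.adjoin ℚ {s}))
  intro g hg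
  rw [W2_mems]
  exact (IntermediateField.mem_fixingSubgroup_iff _ g).1 hg _
    (IntermediateField.mem_adjoin_simple_self ℚ s)

private theorem W2_pm {s : AlgebraicClosure ℚ} {x : ℚ}
    (hs : s ^ 2 = algebraMap ℚ (AlgebraicClosure ℚ) x) (g : GQ) : g s = s ∨ g s = -s := by
  have h : (g s) ^ 2 = s ^ 2 := by
    rw [← map_pow, hs]
    exact g.commutes x
  exact sq_eq_sq_iff_eq_or_eq_neg.1 h

private theorem W2_normal {s : AlgebraicClosure ℚ} {x : ℚ}
    (hs : s ^ 2 = algebraMap ℚ (AlgebraicClosure ℚ) x) : (W2_st s).Normal := by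
  refine ⟨fun n hn g => ?_⟩
  have hn' : n s = s := W2_mems.1 hn
  rw [W2_mems, AlgEquiv.mul_apply, AlgEquiv.mul_apply]
  have hgg : g (g⁻¹ s) = s := by
    rw [← AlgEquiv.mul_apply, mul_inv_cancel]
    rfl
  rcases W2_pm hs g⁻¹ with h | h
  · rw [h, hn']
    rw [h] at hgg
    exact hgg
  · rw [h, map_neg, hn']
    rw [h] at hgg
    exact hgg

private theorem W2_sq {s : AlgebraicClosure ℚ} {x : ℚ}
    (hs : s ^ 2 = algebraMap ℚ (AlgebraicClosure ℚ) x) (g : GQ) : g * g ∈ W2_st s := by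
  rw [W2_mems, AlgEquiv.mul_apply]
  rcases W2_pm hs g with h | h
  · rw [h, h]
  · rw [h, map_neg, h, neg_neg]

private theorem W2_two {s : AlgebraicClosure ℚ} {x : ℚ}
    (hs : s ^ 2 = algebraMap ℚ (AlgebraicClosure ℚ) x) (a b : GQ) (ha : a s ≠ s) (hb : b s ≠ s) :
    a⁻¹ * b ∈ W2_st s := by
  have ha' := (W2_pm hs a).resolve_left ha
  have hb' := (W2_pm hs b).resolve_left hb
  rw [W2_mems, AlgEquiv.mul_apply, hb', map_neg]
  have h1 : a⁻¹ (a s) = s := by
    rw [← AlgEquiv.mul_apply, inv_mul_cancel]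
    rfl
  rw [ha', map_neg] at h1
  exact h1

/-- two different primes have different stabilizers -/
private theorem W2_inj {p q : ℕ} (hp : p.Prime) (hq : q.Prime) {s t : AlgebraicClosure ℚ}
    (hs : s ^ 2 = algebraMap ℚ (AlgebraicClosure ℚ) (p : ℚ))
    (ht : t ^ 2 = algebraMap ℚ (AlgebraicClosure ℚ) (q : ℚ)) (h : W2_st s = W2_st t) : p = q := by
  by_contra hne
  have hfix : ∀ g : GQ, g (s * t) = s * t := by
    intro g
    rw [map_mul]
    by_cases h1 : g s = s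
    · have h2 : g t = t := W2_mems.1 (h ▸ W2_mems.2 h1)
      rw [h1, h2]
    · have h2 : g t ≠ t := fun h3 => h1 (W2_mems.1 (h ▸ W2_mems.2 h3))
      rw [(W2_pm hs g).resolve_left h1, (W2_pm ht g).resolve_left h2, neg_mul_neg]
  obtain ⟨θ, hθ⟩ := sqrt_mem (F := ℚ) (algebraMap ℚ (AlgebraicClosure ℚ)) (x := (p : ℚ) * q)
    (s := s * t) (by rw [mul_pow, hs, ht, map_mul]) fun g _ => hfix g
  have h1 : IsSquare (((p * q : ℕ) : ℚ)) := by
    refine ⟨θ, ?_⟩
    rw [← sq, hθ]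
    push_cast
    rfl
  rw [Rat.isSquare_natCast_iff] at h1
  obtain ⟨r, hr⟩ := h1
  have hsf : Squarefree (p * q) :=
    (Nat.squarefree_mul ((Nat.coprime_primes hp hq).2 hne)).2 ⟨hp.prime.squarefree, hq.prime.squarefree⟩
  have h2 : IsUnit r := hsf r ⟨1, by rw [hr, mul_one]⟩
  rw [Nat.isUnit_iff] at h2
  rw [h2] at hr
  have h3 := Nat.eq_one_of_mul_eq_one_right hr
  exact hp.one_lt.ne' h3

theorem exists_W {T : Finset ℕ} (hTp : ∀ p ∈ T, p.Prime) (k : ℕ) : ∃ W : Subgroup GQ,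
    IsOpen (W : Set GQ) ∧ W.Normal ∧ W.index = 2 ^ k ∧ (∀ g : GQ, g * g ∈ W) ∧
      ∀ U ∈ famT T, Cyc U ∨ U ≤ W := by
  classical
  induction k with
  | zero =>
    refine ⟨⊤, isOpen_univ, inferInstance, ?_, fun g => Subgroup.mem_top _, fun U _ =>
      Or.inr le_top⟩
    rw [Subgroup.index_top, pow_zero]
  | succ k ih =>
    obtain ⟨W, hWo, hWn, hWi, hWs, hWT⟩ := ih
    have hfi : W.FiniteIndex := ⟨by rw [hWi]; positivity⟩
    have hfin : Finite {H : Subgroup GQ // W ≤ H} := by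
      have h1 : Finite (GQ ⧸ W) := inferInstance
      exact Finite.of_equiv _ (QuotientGroup.comapMk'OrderIso W).toEquiv
    set Q : ℕ := 8 * ∏ p ∈ T, p with hQ
    have hQ0 : Q ≠ 0 := by
      rw [hQ]
      refine mul_ne_zero (by norm_num) (Finset.prod_ne_zero_iff.2 fun p hp => (hTp p hp).ne_zero)
    have hinf : {p : ℕ | p.Prime ∧ p ≡ 1 [MOD Q]}.Infinite :=
      Nat.infinite_setOfPred_prime_modEq_one hQ0
    have hroot : ∀ p : ℕ, ∃ s : AlgebraicClosure ℚ, s ^ 2 = algebraMap ℚ (AlgebraicClosure ℚ) (p : ℚ) :=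
      fun p => IsAlgClosed.exists_pow_nat_eq _ two_pos
    choose s hs using hroot
    obtain ⟨p, hp, hpQ, hpW⟩ : ∃ p : ℕ, p.Prime ∧ p ≡ 1 [MOD Q] ∧ ¬ W ≤ W2_st (s p) := by
      by_contra hno
      push Not at hno
      refine hinf ?_
      let f : {p : ℕ // p.Prime ∧ p ≡ 1 [MOD Q]} → {H : Subgroup GQ // W ≤ H} :=
        fun p => ⟨W2_st (s p.1), hno p.1 p.2.1 p.2.2⟩
      have hf : Function.Injective f := by
        intro p q hpq
        have h1 : W2_st (s p.1) = W2_st (s q.1) := congrArg Subtype.val hpq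
        exact Subtype.ext (W2_inj p.2.1 q.2.1 (hs p.1) (hs q.1) h1)
      have h2 : Finite {p : ℕ // p.Prime ∧ p ≡ 1 [MOD Q]} := Finite.of_injective f hf
      exact @Set.toFinite _ {p : ℕ | p.Prime ∧ p ≡ 1 [MOD Q]} h2
    have hsp : (s p) ^ 2 = algebraMap ℚ (AlgebraicClosure ℚ) ((Units.mk0 (p : ℚ)
        (by exact_mod_cast hp.ne_zero) : ℚˣ) : ℚ) := hs p
    obtain ⟨a, haW, ha⟩ : ∃ a ∈ W, a ∉ W2_st (s p) := by
      by_contra hno
      push Not at hno
      exact hpW hno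
    have hno := W2_normal (hs p)
    refine ⟨W ⊓ W2_st (s p), ?_, inferInstance, ?_, fun g => ⟨hWs g, W2_sq (hs p) g⟩, ?_⟩
    · have h1 : ((W ⊓ W2_st (s p) : Subgroup GQ) : Set GQ) = (W : Set GQ) ∩ (W2_st (s p) : Set GQ) :=
        Subgroup.coe_inf _ _
      rw [h1]
      exact hWo.inter (W2_open _)
    · rw [← Subgroup.relIndex_mul_index (inf_le_left : W ⊓ W2_st (s p) ≤ W),
        Subgroup.inf_relIndex_left, hWi, pow_succ, mul_comm]
      congr 1
      rw [Subgroup.relIndex_eq_two_iff]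
      refine ⟨a, haW, fun b _ => ?_⟩
      by_cases hb : b ∈ W2_st (s p)
      · refine Or.inr ⟨hb, fun h => ha ?_⟩
        exact ((W2_st (s p)).mul_mem_cancel_left hb).1 h
      · refine Or.inl ⟨?_, hb⟩
        have h1 : b⁻¹ ∉ W2_st (s p) := fun h => hb (by simpa using (W2_st (s p)).inv_mem h)
        have h2 := W2_two (hs p) b⁻¹ a (fun h => h1 (W2_mems.2 h)) (fun h => ha (W2_mems.2 h))
        rwa [inv_inv] at h2
    · intro U hU
      rcases hWT U hU with h | h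
      · exact Or.inl h
      have hst : U ≤ stb (algebraMap ℚ (AlgebraicClosure ℚ)) := fun g _ => Subsingleton.elim _ _
      have hsq : ∀ v : HeightOneSpectrum (𝓞 ℚ), ¬ Away ℚ T v →
          LSq v (Units.mk0 (p : ℚ) (by exact_mod_cast hp.ne_zero) : ℚˣ) := fun v hv =>
        W2_lsq hTp hv (n := (p : ℤ)) (by rw [Units.val_mk0]; push_cast; rfl)
          ((Nat.modEq_iff_dvd.1 hpQ.symm))
      rcases Pool.Agent.MD.fix_T T (algebraMap ℚ (AlgebraicClosure ℚ)) _ (s p) hsp hsq U hU hst with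
        h1 | h1
      · exact Or.inl h1
      · exact Or.inr (le_inf h fun g hg => W2_mems.2 (h1 g hg))

theorem dvd_index {T : Finset ℕ} {W N : Subgroup GQ} {m : ℕ} (hWn : W.Normal)
    (hWi : W.index = 2 ^ (m + 1)) (hWs : ∀ g : GQ, g * g ∈ W) (hWT : ∀ U ∈ famT T, Cyc U ∨ U ≤ W)
    (hN : N ≤ W) {U : Subgroup GQ} (hU : U ∈ famT T) : 2 ^ m ∣ (U ⊔ N).index := by
  refine dvd_trans ?_ (Subgroup.index_dvd_of_le (sup_le_sup_left hN U : U ⊔ N ≤ U ⊔ W))
  rcases hWT U hU with ⟨u, rfl⟩ | h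
  · by_cases huW : u ∈ W
    · have h1 : Subgroup.zpowers u ⊔ W = W := sup_eq_right.2 (Subgroup.zpowers_le.2 huW)
      rw [h1, hWi]
      exact pow_dvd_pow 2 (by omega)
    · have h2 : W.relIndex (Subgroup.zpowers u ⊔ W) = 2 := by
        rw [Subgroup.relIndex_eq_two_iff]
        refine ⟨u, Subgroup.mem_sup_left (Subgroup.mem_zpowers u), fun b hb => ?_⟩
        obtain ⟨y, hy, z, hz, rfl⟩ := Subgroup.mem_sup_of_normal_right.1 hb
        obtain ⟨k, rfl⟩ := Subgroup.mem_zpowers_iff.1 hy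
        have hzu : ∀ x : GQ, x * z * u ∈ W ↔ x * u ∈ W := by
          intro x
          have h3 : x * z * u = (x * u) * (u⁻¹ * z * u⁻¹⁻¹) := by group
          rw [h3, W.mul_mem_cancel_right (hWn.conj_mem z hz u⁻¹)]
        rw [hzu, W.mul_mem_cancel_right hz]
        rcases Int.even_or_odd k with ⟨j, rfl⟩ | ⟨j, rfl⟩
        · have h4 : u ^ (j + j) ∈ W := by
            rw [← two_mul, zpow_mul]
            refine W.zpow_mem ?_ _
            rw [zpow_two]
            exact hWs u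
          refine Or.inr ⟨h4, fun h => huW ?_⟩
          exact (W.mul_mem_cancel_left h4).1 h
        · have h4 : u ^ (2 * j) ∈ W := by
            rw [zpow_mul]
            refine W.zpow_mem ?_ _
            rw [zpow_two]
            exact hWs u
          rw [zpow_add, zpow_one]
          refine Or.inl ⟨?_, fun h => huW ((W.mul_mem_cancel_left h4).1 h)⟩
          rw [mul_assoc]
          exact W.mul_mem h4 (hWs u)
      have h3 := Subgroup.relIndex_mul_index (le_sup_right : W ≤ Subgroup.zpowers u ⊔ W)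
      rw [h2, hWi, pow_succ, mul_comm] at h3
      exact ⟨1, by rw [mul_one]; exact Nat.eq_of_mul_eq_mul_right two_pos h3⟩
  · rw [sup_eq_right.2 h, hWi]
    exact pow_dvd_pow 2 (by omega)

end Pool.Agent.TF2
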