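import Pool.Agent.TF2.L.Grp2
import Pool.Agent.THF.L.Alg
import Pool.Agent.LD.L.Fld
import Pool.Agent.H73.AL.Final

/-!
# TF2/L-Alg2: ALG with known fields of bounded degree divisible by `2 ^ m`

As THF/L/Alg.
-/

namespace Pool.Agent.TF2

open NumberField IsDedekindDomain Pool.Agent.HWR Pool.Agent.QD Pool.Agent.LD Pool.Agent.H73.AL
  Pool.Agent.H73.DU Pool.Agent.THF

/-- totally complex, even local degrees at the places over the primes `p ∈ V`, `p ∉ T`, degree divisible by `2 ^ m` -/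
def Ev (V T : Finset ℕ) (m : ℕ) (F : Type) [Field F] [NumberField F] : Prop :=
  IsEmpty (F →+* ℝ) ∧ 2 ^ m ∣ Module.finrank ℚ F ∧ ∀ p ∈ V, p.Prime → p ∉ T →
    ∀ w : HeightOneSpectrum (𝓞 F), ((p : ℕ) : 𝓞 F) ∈ w.asIdeal → 2 ∣ locDeg ℚ w

private theorem fr2_of_mark (F : Type) [Field F] [NumberField F] (H : Subgroup GQ)
    (hmark : mark F = pc H) : Module.finrank ℚ F = H.index := by
  have h3 := congrFun hmark ⊥
  rw [pc_bot, mark, pch_bot] at h3
  have h4 := NumberField.Embeddings.card F (AlgebraicClosure ℚ)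
  rw [← Nat.card_eq_fintype_card] at h4
  rw [h4] at h3
  exact_mod_cast h3

private theorem stb2_rat (φ0 : ℚ →+* AlgebraicClosure ℚ) : stb φ0 = ⊤ := by
  rw [eq_top_iff]
  intro g _
  change g • φ0 = φ0
  exact Subsingleton.elim _ _

theorem ev_field {V T : Finset ℕ} {i : AlgebraicClosure ℚ →+* ℂ} {c : GQ} {m C : ℕ}
    (h : IsCx i c) {J : Subgroup GQ} (hJ : EvG V T c m C J) : ∃ F : NF, mark F.F = pc J ∧
      Ev V T m F.F ∧ Module.finrank ℚ F.F ≤ C := by
  obtain ⟨hop, hc, hd, hC, x, s, hs, hfix, hloc⟩ := hJ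
  have hst0 := stb2_rat (algebraMap ℚ (AlgebraicClosure ℚ))
  obtain ⟨F, inst, ψ, -, hst, hmark, -⟩ := exists_fld ⟨ℚ⟩ (algebraMap ℚ (AlgebraicClosure ℚ)) J hop
    (by rw [hst0]; exact le_top) (n := J.index) (by
      rw [hst0, Subgroup.index_top, mul_one])
  clear inst
  have hfin : Module.finrank ℚ F.F = J.index := fr2_of_mark F.F J hmark
  refine ⟨F, hmark, ⟨tc_of h F.F ψ (by rw [hst]; exact hc), by rw [hfin]; exact hd, ?_⟩,
    by rw [hfin]; exact hC⟩
  intro p hpV hp hpT w hw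
  obtain ⟨θ, hθ⟩ := sqrt_mem ψ hs fun g hg => hfix g (by rw [← hst]; exact hg)
  exact even_of F.F hθ hp (hloc p hpV hp hpT) w hw

theorem alg2 (V : Finset ℕ) (m : ℕ) {T : Finset ℕ} (hTp : ∀ p ∈ T, p.Prime) (h2 : 2 ∈ T) (K : NF) :
    ∃ (k : ℕ) (A B : List NF), 0 < k ∧
      (∀ F ∈ A ++ B, Ev V T m F.F ∧ Module.finrank ℚ F.F ≤ bdA (Module.finrank ℚ K.F) m) ∧
      Rel T (List.replicate k K ++ A)
        (List.replicate (k * InfinitePlace.nrRealPlaces K.F) ⟨ℚ⟩ ++ B) := by
  classical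
  obtain ⟨i, c, hc, k, A, B, hk, hAB, hid⟩ := grp2 V m hTp h2 K.F
  set C : ℕ := bdA (Module.finrank ℚ K.F) m with hC
  let f : Subgroup GQ → NF := fun J =>
    if h : EvG V T c m C J then (ev_field hc h).choose else ⟨ℚ⟩
  have hf : ∀ J, EvG V T c m C J → mark (f J).F = pc J ∧ Ev V T m (f J).F ∧
      Module.finrank ℚ (f J).F ≤ C := by
    intro J hJ
    have h1 : f J = (ev_field hc hJ).choose := dif_pos hJ
    rw [h1]
    exact (ev_field hc hJ).choose_spec
  refine ⟨k, A.map f, B.map f, hk, ?_, ?_⟩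
  · intro F hF
    rw [← List.map_append, List.mem_map] at hF
    obtain ⟨J, hJ, rfl⟩ := hF
    exact (hf J (hAB J hJ)).2
  · intro U hU
    have hA : ((A.map f).map fun F => mark F.F U) = A.map fun J => pc J U := by
      rw [List.map_map]
      refine List.map_congr_left fun J hJ => ?_
      change mark (f J).F U = pc J U
      rw [(hf J (hAB J (List.mem_append.2 (Or.inl hJ)))).1]
    have hB : ((B.map f).map fun F => mark F.F U) = B.map fun J => pc J U := by
      rw [List.map_map]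
      refine List.map_congr_left fun J hJ => ?_
      change mark (f J).F U = pc J U
      rw [(hf J (hAB J (List.mem_append.2 (Or.inr hJ)))).1]
    rw [List.map_append, List.map_append, List.sum_append, List.sum_append, hA, hB,
      List.map_replicate, List.map_replicate, List.sum_replicate, List.sum_replicate,
      mark_one ℚ (Module.finrank_self ℚ), ← hid U hU]
    simp only [nsmul_eq_mul]
    push_cast
    ring

end Pool.Agent.TF2
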