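import Pool.Agent.THF.L.Artin
import Pool.Agent.THF.L.AB
import Pool.Agent.THF.L.Real
import Pool.Agent.THF.L.Sq
import Pool.Agent.TF2.L.Cent2
import Pool.Agent.TF2.L.W2

/-!
# TF2/L-Grp2: the group theoretic form of ALG with bounded index divisible by `2 ^ m`

As THF/L/Grp; `N0` has index `≤ 2 * n!`, `n = [F : ℚ]`, `N1` by `cent2`, and `N2` is also contained in the group `W` of `exists_W`.
-/

namespace Pool.Agent.TF2

open NumberField IsDedekindDomain Pool.Agent.HWR Pool.Agent.QD Pool.Agent.LD Pool.Agent.H73.AL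
  Pool.Agent.H73.DU Pool.Agent.THF Nat

/-- the bound for the degrees of the fields in the relation of a field of degree `≤ n` -/
def bdA (n m : ℕ) : ℕ := 2 ^ (m + 3) * ((2 * n !) * 2 ^ ((2 * n !) ^ 2))

theorem bdA_mono {n n' : ℕ} (h : n ≤ n') (m : ℕ) : bdA n m ≤ bdA n' m := by
  have h1 := Nat.factorial_le h
  have h2 : 2 * n ! ≤ 2 * n' ! := Nat.mul_le_mul_left 2 h1
  unfold bdA
  exact Nat.mul_le_mul_left _ (Nat.mul_le_mul h2 (Nat.pow_le_pow_right two_pos
    (Nat.pow_le_pow_left h2 2)))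

/-- the subgroups of the known fields -/
def EvG (V T : Finset ℕ) (c : GQ) (m C : ℕ) (J : Subgroup GQ) : Prop :=
  IsOpen (J : Set GQ) ∧ (∀ g : GQ, g⁻¹ * c * g ∉ J) ∧ 2 ^ m ∣ J.index ∧ J.index ≤ C ∧
    ∃ (x : ℚˣ) (s : AlgebraicClosure ℚ),
    s ^ 2 = algebraMap ℚ (AlgebraicClosure ℚ) (x : ℚ) ∧ (∀ g ∈ J, g s = s) ∧
    ∀ p ∈ V, p.Prime → p ∉ T → ∀ v : HeightOneSpectrum (𝓞 ℚ),
      ((p : ℕ) : 𝓞 ℚ) ∈ v.asIdeal → ¬ LSq v x

private theorem g2_cl (inst : Algebra ℚ (AlgebraicClosure ℚ)) :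
    IsAlgClosure ℚ (AlgebraicClosure ℚ) := by
  have h : inst = AlgebraicClosure.instAlgebra ℚ := Subsingleton.elim _ _
  subst h
  infer_instance

/-- the stabilizer of an element -/
private noncomputable def g2_st (s : AlgebraicClosure ℚ) : Subgroup GQ :=
  MulAction.stabilizer GQ s

private theorem g2_mem {s : AlgebraicClosure ℚ} {g : GQ} : g ∈ g2_st s ↔ g s = s := by
  unfold g2_st
  rw [MulAction.mem_stabilizer_iff, AlgEquiv.smul_def]

private theorem g2_open (s : AlgebraicClosure ℚ) : IsOpen (g2_st s : Set GQ) := by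
  have hcl : IsAlgClosure ℚ (AlgebraicClosure ℚ) := g2_cl inferInstance
  have hi : IsIntegral ℚ s := (hcl.isAlgebraic.isAlgebraic s).isIntegral
  have : FiniteDimensional ℚ (IntermediateField.adjoin ℚ {s}) :=
    IntermediateField.adjoin.finiteDimensional hi
  refine Subgroup.isOpen_mono ?_
    (IntermediateField.fixingSubgroup_isOpen (IntermediateField.adjoin ℚ {s}))
  intro g hg
  rw [g2_mem]
  exact (IntermediateField.mem_fixingSubgroup_iff _ g).1 hg _
    (IntermediateField.mem_adjoin_simple_self ℚ s)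

private theorem g2_pm {s : AlgebraicClosure ℚ} {x : ℚ}
    (hs : s ^ 2 = algebraMap ℚ (AlgebraicClosure ℚ) x) (g : GQ) : g s = s ∨ g s = -s := by
  have h : (g s) ^ 2 = s ^ 2 := by
    rw [← map_pow, hs]
    exact g.commutes x
  exact sq_eq_sq_iff_eq_or_eq_neg.1 h

private theorem g2_index {s : AlgebraicClosure ℚ} {x : ℚ}
    (hs : s ^ 2 = algebraMap ℚ (AlgebraicClosure ℚ) x) : (g2_st s).index ≤ 2 := by
  unfold g2_st
  rw [MulAction.index_stabilizer]
  have hsub : MulAction.orbit GQ s ⊆ ({s, -s} : Set (AlgebraicClosure ℚ)) := by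
    rintro _ ⟨g, rfl⟩
    change g • s ∈ ({s, -s} : Set (AlgebraicClosure ℚ))
    rw [AlgEquiv.smul_def]
    rcases g2_pm hs g with h | h
    · rw [h]
      exact Set.mem_insert _ _
    · rw [h]
      exact Set.mem_insert_of_mem _ rfl
  refine (Set.ncard_le_ncard hsub (Set.toFinite _)).trans ?_
  refine (Set.ncard_insert_le _ _).trans ?_
  rw [Set.ncard_singleton]

private theorem g2_normal {s : AlgebraicClosure ℚ} {x : ℚ}
    (hs : s ^ 2 = algebraMap ℚ (AlgebraicClosure ℚ) x) : (g2_st s).Normal := by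
  refine ⟨fun n hn g => ?_⟩
  have hn' : n s = s := g2_mem.1 hn
  rw [g2_mem, AlgEquiv.mul_apply, AlgEquiv.mul_apply]
  have hgg : g (g⁻¹ s) = s := by
    rw [← AlgEquiv.mul_apply, mul_inv_cancel]
    rfl
  rcases g2_pm hs g⁻¹ with h | h
  · rw [h, hn']
    rw [h] at hgg
    exact hgg
  · rw [h, map_neg, hn']
    rw [h] at hgg
    exact hgg

private theorem g2_sqrt (x : ℚ) :
    ∃ s : AlgebraicClosure ℚ, s ^ 2 = algebraMap ℚ (AlgebraicClosure ℚ) x :=
  IsAlgClosed.exists_pow_nat_eq _ (by norm_num)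


private theorem g2_factorial (F : Type) [Field F] [NumberField F] :
    (⨅ ψ : F →+* AlgebraicClosure ℚ, stb ψ).index ≤ (Module.finrank ℚ F) ! := by
  classical
  have h1 : (⨅ ψ : F →+* AlgebraicClosure ℚ, stb ψ) =
      (MulAction.toPermHom GQ (F →+* AlgebraicClosure ℚ)).ker := by
    ext g
    rw [Subgroup.mem_iInf, MonoidHom.mem_ker]
    constructor
    · intro h
      ext1 ψ
      exact h ψ
    · intro h ψ
      exact Equiv.congr_fun h ψ
  have h4 := NumberField.Embeddings.card F (AlgebraicClosure ℚ)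
  rw [h1, Subgroup.index_ker]
  refine (Nat.card_le_card_of_injective _ Subtype.val_injective).trans ?_
  rw [Nat.card_eq_fintype_card, Fintype.card_perm, h4]

theorem grp2 (V : Finset ℕ) (m : ℕ) {T : Finset ℕ} (hTp : ∀ p ∈ T, p.Prime) (h2 : 2 ∈ T)
    (F : Type) [Field F] [NumberField F] : ∃ (i : AlgebraicClosure ℚ →+* ℂ) (c : GQ), IsCx i c ∧
      ∃ (k : ℕ) (A B : List (Subgroup GQ)), 0 < k ∧
        (∀ J ∈ A ++ B, EvG V T c m (bdA (Module.finrank ℚ F) m) J) ∧
        ∀ U ∈ famT T, (k : ℤ) * (mark F U - InfinitePlace.nrRealPlaces F) +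
          (A.map fun J => pc J U).sum = (B.map fun J => pc J U).sum := by
  obtain ⟨i, c, hic⟩ := exists_cx
  obtain ⟨d, hd0, hdT⟩ := exists_d hTp h2
  obtain ⟨s, hs⟩ := g2_sqrt (d : ℚ)
  have hnice := nice_rat T
  -- the group `N0`
  let H0 : Subgroup GQ := (⨅ ψ : F →+* AlgebraicClosure ℚ, stb ψ) ⊓ g2_st s
  have hH0 : IsOpen (H0 : Set GQ) := by
    have h1 : (H0 : Set GQ) = (⋂ ψ : F →+* AlgebraicClosure ℚ, (stb ψ : Set GQ)) ∩
        (g2_st s : Set GQ) := by
      simp only [H0, Subgroup.coe_inf, Subgroup.coe_iInf]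
    rw [h1]
    refine IsOpen.inter (isOpen_iInter_of_finite fun ψ => ?_) (g2_open s)
    exact stab_open F ψ
  let N0 : Subgroup GQ := H0.normalCore
  have hN0 : IsOpen (N0 : Set GQ) := hnice.core hH0
  have hn0 : N0.Normal := H0.normalCore_normal
  have hfi0 : N0.FiniteIndex := hnice.finiteIndex hN0
  have hN0i : N0.index ≤ 2 * (Module.finrank ℚ F) ! := by
    have hns := g2_normal hs
    have hni : (⨅ ψ : F →+* AlgebraicClosure ℚ, stb ψ).Normal := by
      refine ⟨fun n hn g => ?_⟩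
      rw [Subgroup.mem_iInf] at hn ⊢
      intro ψ
      have h1 : n • g⁻¹ • ψ = g⁻¹ • ψ := hn (g⁻¹ • ψ)
      change (g * n * g⁻¹) • ψ = ψ
      rw [mul_smul, mul_smul, h1, smul_inv_smul]
    have hnH : H0.Normal := by
      change ((⨅ ψ : F →+* AlgebraicClosure ℚ, stb ψ) ⊓ g2_st s).Normal
      infer_instance
    have e0 : N0 = H0 := H0.normalCore_eq_self
    rw [e0]
    change ((⨅ ψ : F →+* AlgebraicClosure ℚ, stb ψ) ⊓ g2_st s).index ≤ _
    refine Subgroup.index_inf_le.trans ?_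
    rw [mul_comm]
    exact Nat.mul_le_mul (g2_index hs) (g2_factorial F)
  have hN0F : ∀ ψ : F →+* AlgebraicClosure ℚ, N0 ≤ stb ψ := fun ψ =>
    (H0.normalCore_le.trans inf_le_left).trans (iInf_le _ ψ)
  have hN0s : ∀ g ∈ N0, g s = s := fun g hg =>
    g2_mem.1 ((H0.normalCore_le.trans inf_le_right) hg)
  obtain ⟨N1, hN1, hn1, h10, hN1i, hcent⟩ := cent2 hic N0 hN0 hn0 hfi0
  have hfi1 : N1.FiniteIndex := hnice.finiteIndex hN1
  -- the auxiliary square roots
  let L : ℕ := V.sup id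
  obtain ⟨a, b, habT, habL⟩ := exists_ab hTp h2 L
  obtain ⟨W, hWo, hWn, hWi, hWs, hWT⟩ := exists_W hTp (m + 1)
  obtain ⟨sa, hsa⟩ := g2_sqrt (a : ℚ)
  obtain ⟨sb, hsb⟩ := g2_sqrt (b : ℚ)
  -- the group `N2`
  let N2 : Subgroup GQ := N1 ⊓ ((g2_st sa ⊓ g2_st sb) ⊓ W)
  have hna := g2_normal hsa
  have hnb := g2_normal hsb
  have hn2 : N2.Normal := inferInstance
  have hN2 : IsOpen (N2 : Set GQ) := by
    have h1 : (N2 : Set GQ) = (N1 : Set GQ) ∩ (((g2_st sa : Set GQ) ∩ (g2_st sb : Set GQ)) ∩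
        (W : Set GQ)) := by
      simp only [N2, Subgroup.coe_inf]
    rw [h1]
    exact hN1.inter (((g2_open sa).inter (g2_open sb)).inter hWo)
  have hfi2 : N2.FiniteIndex := hnice.finiteIndex hN2
  have h21 : N2 ≤ N1 := inf_le_left
  have h20 : N2 ≤ N0 := h21.trans h10
  have hN2ab : ∀ g ∈ N2, g sa = sa ∧ g sb = sb := fun g hg =>
    ⟨g2_mem.1 hg.2.1.1, g2_mem.1 hg.2.1.2⟩
  have hN2W : N2 ≤ W := fun g hg => hg.2.2
  have hN2i : N2.index ≤ bdA (Module.finrank ℚ F) m := by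
    have e1 : N2.index ≤ N1.index * ((g2_st sa ⊓ g2_st sb) ⊓ W).index := Subgroup.index_inf_le
    have e2 : ((g2_st sa ⊓ g2_st sb) ⊓ W).index ≤ (g2_st sa ⊓ g2_st sb).index * W.index :=
      Subgroup.index_inf_le
    have e3 : (g2_st sa ⊓ g2_st sb).index ≤ (g2_st sa).index * (g2_st sb).index :=
      Subgroup.index_inf_le
    have e4 : (g2_st sa).index * (g2_st sb).index ≤ 2 * 2 :=
      Nat.mul_le_mul (g2_index hsa) (g2_index hsb)
    have e5 : ((g2_st sa ⊓ g2_st sb) ⊓ W).index ≤ 2 ^ (m + 3) := by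
      refine e2.trans ?_
      rw [hWi]
      calc (g2_st sa ⊓ g2_st sb).index * 2 ^ (m + 1) ≤ (2 * 2) * 2 ^ (m + 1) :=
            Nat.mul_le_mul_right _ (e3.trans e4)
        _ = 2 ^ (m + 3) := by ring
    unfold bdA
    calc N2.index ≤ N1.index * 2 ^ (m + 3) := e1.trans (Nat.mul_le_mul_left _ e5)
      _ ≤ ((2 * (Module.finrank ℚ F) !) * 2 ^ ((2 * (Module.finrank ℚ F) !) ^ 2)) * 2 ^ (m + 3) := by
          refine Nat.mul_le_mul_right _ (hN1i.trans ?_)
          exact Nat.mul_le_mul hN0i (Nat.pow_le_pow_right two_pos (Nat.pow_le_pow_left hN0i 2))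
      _ = _ := by ring
  obtain ⟨k, A, B, hk, hAB, hid, hzero⟩ := artin N2 (SS0 T N2 c)
    (by
      rintro H ⟨⟨U, -, rfl⟩, -⟩
      exact le_sup_right)
    (fun H hH g => SS0_conj hn2 hH g)
    (fun H hH H' h1 h2 => SS0_sub hn2 hH h1 h2)
    (fun U => mark F U - (InfinitePlace.nrRealPlaces F : ℤ))
    (fun H _ g => by
      change mark F (cj g H) - _ = _
      rw [mark_cj])
  have hN2J : ∀ J ∈ A ++ B, N2 ≤ J := by
    intro J hJ
    obtain ⟨⟨U, -, rfl⟩, -⟩ := hAB J hJ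
    exact le_sup_right
  refine ⟨i, c, hic, k, A, B, hk, ?_, ?_⟩
  · intro J hJ
    have hNJ := hN2J J hJ
    obtain ⟨⟨U, hU, hJU⟩, hJc⟩ := hAB J hJ
    have hJi : J.index ≤ bdA (Module.finrank ℚ F) m := by
      refine le_trans ?_ hN2i
      refine Nat.le_of_dvd ?_ (Subgroup.index_dvd_of_le hNJ)
      exact Nat.pos_of_ne_zero hfi2.index_ne_zero
    have hJd : 2 ^ m ∣ J.index := by
      rw [hJU]
      exact dvd_index hWn hWi hWs hWT hN2W hU
    refine ⟨Subgroup.isOpen_mono hNJ hN2, hJc, hJd, hJi, ?_⟩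
    have hVL : ∀ p ∈ V, p ≤ L := fun p hp => Finset.le_sup (f := id) hp
    have hroot := root_fix (T := T) (a := a) (b := b) (fun v hv => (habT v hv).1) hsa hsb hn2
      hN2ab hU
    rw [← hJU] at hroot
    rcases hroot with h | h | h
    · refine ⟨a, sa, hsa, h, ?_⟩
      intro p hpV hp hpT v hv
      exact (habL v p hp (hVL p hpV) hpT hv).1
    · refine ⟨b, sb, hsb, h, ?_⟩
      intro p hpV hp hpT v hv
      exact (habL v p hp (hVL p hpV) hpT hv).2.1
    · refine ⟨a * b, sa * sb, ?_, h, ?_⟩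
      · rw [mul_pow, hsa, hsb, Units.val_mul, map_mul]
      · intro p hpV hp hpT v hv
        exact (habL v p hp (hVL p hpV) hpT hv).2.2
  · intro U hU
    have hpcA : (A.map fun J => pc J U).sum = (A.map fun J => pc J (U ⊔ N2)).sum := by
      congr 1
      refine List.map_congr_left fun J hJ => ?_
      exact (pc_sup N2 J U (hN2J J (List.mem_append_left _ hJ))).symm
    have hpcB : (B.map fun J => pc J U).sum = (B.map fun J => pc J (U ⊔ N2)).sum := by
      congr 1
      refine List.map_congr_left fun J hJ => ?_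
      exact (pc_sup N2 J U (hN2J J (List.mem_append_right _ hJ))).symm
    have hmark : mark F (U ⊔ N2) = mark F U := mark_sup F N2 U fun ψ => h20.trans (hN0F ψ)
    rw [hpcA, hpcB]
    by_cases hH : U ⊔ N2 ∈ SS0 T N2 c
    · have h := hid _ hH
      rw [← hmark]
      exact h
    · have hz := hzero (U ⊔ N2) le_sup_right hH
      have hA0 : (A.map fun J => pc J (U ⊔ N2)).sum = 0 := by
        apply List.sum_eq_zero
        intro x hx
        obtain ⟨J, hJ, rfl⟩ := List.mem_map.1 hx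
        exact hz J (List.mem_append_left _ hJ)
      have hB0 : (B.map fun J => pc J (U ⊔ N2)).sum = 0 := by
        apply List.sum_eq_zero
        intro x hx
        obtain ⟨J, hJ, rfl⟩ := List.mem_map.1 hx
        exact hz J (List.mem_append_right _ hJ)
      have hg : ∃ g : GQ, g⁻¹ * c * g ∈ U ⊔ N2 := by
        by_contra hno
        push Not at hno
        exact hH ⟨⟨U, hU, rfl⟩, hno⟩
      obtain ⟨g, hg⟩ := hg
      have hr := mark_real hic F hd0 hdT hs hn0 hn1 hn2 h10 h21 hN0F hN0s hcent hU hg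
      rw [hA0, hB0, hr, sub_self, mul_zero, zero_add]

end Pool.Agent.TF2
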